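import Pool.Agent.H15.QP.Re

/-! Primes in windows of polylogarithmic length dilated by primes of polylogarithmic size:
at all but few points of a well spaced set the expected number of primes `p` with `a x < p ≤ a (x + ℓ)`,
`a` in a given dense set of primes. -/

set_option autoImplicit false

namespace Pool.Agent.Results.MP_711652_nt.PolylogPrimeDilations
open Finset MeasureTheory Pool.Agent.H15.QP

lemma Th_mono (A : Finset ℕ) {y ℓ y' ℓ' : ℝ} (h1 : y' ≤ y) (h2 : y + ℓ ≤ y' + ℓ') : Th A y ℓ ≤ Th A y' ℓ' := by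
  unfold Th
  apply sum_le_sum
  intro a _
  apply sum_le_sum_of_subset_of_nonneg
  · apply filter_subset_filter
    apply Ioc_subset_Ioc
    · exact Nat.floor_le_floor (mul_le_mul_of_nonneg_left h1 (Nat.cast_nonneg a))
    · exact Nat.floor_le_floor (mul_le_mul_of_nonneg_left h2 (Nat.cast_nonneg a))
  · intro p hp _
    rw [mem_filter] at hp
    exact Real.log_nonneg (by exact_mod_cast hp.2.one_lt.le)

lemma count_bad (E : Set ℝ) (X : Finset ℝ) (s η' V : ℝ) (hη : 0 < η') (hV : 0 ≤ V) (hE : volume E ≤ ENNReal.ofReal V)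
    (hsep : ∀ x ∈ X, ∀ x' ∈ X, x ≠ x' → η' < |x - x'|) (hX : ∀ x ∈ X, Set.Icc (x + s) (x + s + η') ⊆ E) : X.card * η' ≤ V := by
  have h1 : volume (⋃ x ∈ X, Set.Icc (x + s) (x + s + η')) = ∑ x ∈ X, volume (Set.Icc (x + s) (x + s + η')) := by
    apply measure_biUnion_finset
    · intro x hx x' hx' hne
      rw [Function.onFun, Set.disjoint_left]
      rintro z ⟨hz1, hz2⟩ ⟨hz3, hz4⟩
      have h2 := hsep x hx x' hx' hne
      rw [lt_abs] at h2
      rcases h2 with h2 | h2 <;> linarith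
    · intro x _
      exact measurableSet_Icc
  have h2 : ∀ x ∈ X, volume (Set.Icc (x + s) (x + s + η')) = ENNReal.ofReal η' := by
    intro x _
    rw [Real.volume_Icc]
    congr 1
    ring
  rw [sum_congr rfl h2, sum_const, nsmul_eq_mul, ← ENNReal.ofReal_natCast, ← ENNReal.ofReal_mul (Nat.cast_nonneg _)] at h1
  have h3 : volume (⋃ x ∈ X, Set.Icc (x + s) (x + s + η')) ≤ ENNReal.ofReal V :=
    (measure_mono (Set.iUnion₂_subset hX)).trans hE
  rw [h1] at h3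
  exact (ENNReal.ofReal_le_ofReal_iff hV).1 h3

/-- For every `B` there is `C` such that, for all large `N`, all `P` with `(log N)^C ≤ P ≤ N^B`, every set `A` of at least
`P / (log N)^B` primes in `(P / 2, P]`, every `η` in `[1 / (P (log N)^B), 1]` and every `η`-separated finite set `X` of reals
in `[N, 2 N]`: for all but `N / (η (log N)^B)` of the points `x` of `X`, every `ℓ` in `[η, N / (log N)^C]` satisfies
`∑_{a ∈ A} ∑_{a x < p ≤ a (x + ℓ)} log p = (1 + θ (log N)^{-B}) ℓ ∑_{a ∈ A} a`, `|θ| ≤ 1`. -/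
theorem result (B : ℕ) : ∃ (C : ℕ) (N₀ : ℝ), ∀ (N P η : ℝ) (A : Finset ℕ) (X : Finset ℝ),
    N₀ ≤ N → Real.log N ^ C ≤ P → P ≤ N ^ B →
    (∀ a ∈ A, a.Prime ∧ P / 2 < a ∧ (a : ℝ) ≤ P) → P / Real.log N ^ B ≤ A.card →
    1 / (P * Real.log N ^ B) ≤ η → η ≤ 1 →
    (∀ x ∈ X, N ≤ x ∧ x ≤ 2 * N) → (∀ x ∈ X, ∀ x' ∈ X, x ≠ x' → η ≤ |x - x'|) →
    ∃ X' : Finset ℝ, X' ⊆ X ∧ (X'.card : ℝ) ≤ N / (η * Real.log N ^ B) ∧
      ∀ x ∈ X, x ∉ X' → ∀ ℓ : ℝ, η ≤ ℓ → ℓ ≤ N / Real.log N ^ C →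
        |∑ a ∈ A, ∑ p ∈ (Finset.Ioc ⌊(a : ℝ) * x⌋₊ ⌊(a : ℝ) * (x + ℓ)⌋₊).filter Nat.Prime, Real.log p - ℓ * ∑ a ∈ A, (a : ℝ)| ≤
          ℓ * (∑ a ∈ A, (a : ℝ)) / Real.log N ^ B := by
  classical
  obtain ⟨C₁, N₁, hR⟩ := real_version (2 * B + 4)
  refine ⟨C₁ + 1, max N₁ (Real.exp 100), ?_⟩
  intro N P η A X hN hCP hPN hA hcard hη hη1 hX hsep
  have hN1 : N₁ ≤ N := (le_max_left _ _).trans hN
  have hNe : Real.exp 100 ≤ N := (le_max_right _ _).trans hN
  have hNp : 0 < N := (Real.exp_pos _).trans_le hNe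
  have hN100 : 101 ≤ N := by
    have := Real.add_one_le_exp (100 : ℝ)
    linarith
  obtain ⟨L, hL⟩ : ∃ L : ℝ, L = Real.log N := ⟨_, rfl⟩
  have hL100 : 100 ≤ L := by rw [hL, Real.le_log_iff_exp_le hNp]; exact hNe
  have hR' := hR N P A hN1
  rw [← hL] at hCP hcard hη ⊢
  rw [← hL] at hR'
  have hLp : 0 < L := by linarith
  have hL1 : 1 ≤ L := by linarith
  have hPp : 0 < P := lt_of_lt_of_le (by positivity) hCP
  have hηp : 0 < η := lt_of_lt_of_le (by positivity) hη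
  have hLB : 0 < L ^ B := by positivity
  have hL2 : L ^ 2 = L * L := pow_two L
  have hL4 : 10000 ≤ L ^ 2 := by nlinarith only [hL100, hL2]
  obtain ⟨E, hE, hE'⟩ := hR' ((pow_le_pow_right₀ hL1 (by omega)).trans hCP)
    (hPN.trans (pow_le_pow_right₀ (by linarith) (by omega))) hA
    ((div_le_div_of_nonneg_left hPp.le hLB (pow_le_pow_right₀ hL1 (by omega))).trans hcard)
  obtain ⟨η', hη'⟩ : ∃ η' : ℝ, η' = η / L ^ (B + 2) := ⟨_, rfl⟩
  have hη'p : 0 < η' := by rw [hη']; positivity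
  have hLB2 : 1 ≤ L ^ B := one_le_pow₀ hL1
  have hLB3 : 100 ≤ L ^ (B + 2) := by
    rw [pow_add]
    nlinarith only [hLB2, hL4]
  have hηη : η' < η := by
    rw [hη', div_lt_iff₀ (by positivity)]
    nlinarith only [hLB3, hηp]
  refine ⟨X.filter (fun x => Set.Icc (x + -η') (x + -η' + η') ⊆ E ∨ Set.Icc (x + 0) (x + 0 + η') ⊆ E), filter_subset _ _, ?_, ?_⟩
  · have hV : 0 ≤ N / L ^ (2 * B + 4) := by positivity
    have hb : ∀ s : ℝ, ((X.filter (fun x => Set.Icc (x + s) (x + s + η') ⊆ E)).card : ℝ) * η' ≤ N / L ^ (2 * B + 4) := by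
      intro s
      apply count_bad E _ s η' _ hη'p hV hE
      · intro x hx x' hx' hne
        rw [mem_filter] at hx hx'
        exact hηη.trans_le (hsep x hx.1 x' hx'.1 hne)
      · intro x hx
        rw [mem_filter] at hx
        exact hx.2
    have h1 := hb (-η')
    have h2 := hb 0
    have h3 : ((X.filter (fun x => Set.Icc (x + -η') (x + -η' + η') ⊆ E ∨ Set.Icc (x + 0) (x + 0 + η') ⊆ E)).card : ℝ) ≤
        (X.filter (fun x => Set.Icc (x + -η') (x + -η' + η') ⊆ E)).card + (X.filter (fun x => Set.Icc (x + 0) (x + 0 + η') ⊆ E)).card := by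
      rw [filter_or]
      exact_mod_cast card_union_le _ _
    have h4 : ((X.filter (fun x => Set.Icc (x + -η') (x + -η' + η') ⊆ E ∨ Set.Icc (x + 0) (x + 0 + η') ⊆ E)).card : ℝ) * η' ≤
        2 * (N / L ^ (2 * B + 4)) := by
      have := mul_le_mul_of_nonneg_right h3 hη'p.le
      linarith [add_mul ((X.filter (fun x => Set.Icc (x + -η') (x + -η' + η') ⊆ E)).card : ℝ) ((X.filter (fun x => Set.Icc (x + 0) (x + 0 + η') ⊆ E)).card : ℝ) η']
    have h5 : ((X.filter (fun x => Set.Icc (x + -η') (x + -η' + η') ⊆ E ∨ Set.Icc (x + 0) (x + 0 + η') ⊆ E)).card : ℝ) ≤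
        2 * (N / L ^ (2 * B + 4)) / η' := by rwa [le_div_iff₀ hη'p]
    refine h5.trans ?_
    have h6 : 2 * (N / L ^ (2 * B + 4)) / η' = 2 * N / (η * (L ^ B * L ^ 2)) := by
      rw [hη', show 2 * B + 4 = (B + 2) + (B + 2) by ring, pow_add L (B + 2) (B + 2), pow_add L B 2]
      field_simp
    rw [h6, div_le_div_iff₀ (by positivity) (by positivity)]
    have h7 : 0 < N * (η * L ^ B) := by positivity
    have h8 := mul_le_mul_of_nonneg_left hL4 h7.le
    linarith [show N * (η * (L ^ B * L ^ 2)) = N * (η * L ^ B) * L ^ 2 by ring, show 2 * N * (η * L ^ B) = 2 * (N * (η * L ^ B)) by ring]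
  · intro x hx hx' ℓ hℓ1 hℓ2
    rw [mem_filter, not_and_or] at hx'
    have hx'' := hx'.resolve_left (not_not.2 hx)
    rw [not_or, Set.not_subset, Set.not_subset] at hx''
    obtain ⟨⟨y₁, ⟨hy1, hy2⟩, hyE⟩, ⟨y₂, ⟨hz1, hz2⟩, hzE⟩⟩ := hx''
    obtain ⟨hxN1, hxN2⟩ := hX x hx
    have hℓp : 0 < ℓ := by linarith
    change |Th A x ℓ - ℓ * ∑ a ∈ A, (a : ℝ)| ≤ _
    obtain ⟨S, hS⟩ : ∃ S : ℝ, S = ∑ a ∈ A, (a : ℝ) := ⟨_, rfl⟩
    have hS0 : 0 ≤ S := by rw [hS]; exact sum_nonneg fun _ _ => Nat.cast_nonneg _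
    have hmax : ℓ + η' ≤ N / L ^ C₁ := by
      have h1 : N / L ^ C₁ = L * (N / L ^ (C₁ + 1)) := by rw [pow_succ]; field_simp
      rw [h1]
      nlinarith only [hℓ2, hηη, hℓ1, hL100, hℓp]
    have hmin : 1 / (P * L ^ (2 * B + 4)) ≤ ℓ - η' := by
      have h1 : η' ≤ η / 100 := by
        rw [hη']
        exact div_le_div_of_nonneg_left hηp.le (by norm_num) hLB3
      have h2 : 1 / (P * L ^ (2 * B + 4)) ≤ η / 100 := by
        rw [div_le_iff₀ (by positivity)]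
        rw [div_le_iff₀ (by positivity)] at hη
        have h3 : L ^ (2 * B + 4) = L ^ B * L ^ (B + 4) := by rw [← pow_add]; congr 1; ring
        have h4 : 100 ≤ L ^ (B + 4) := by
          calc (100 : ℝ) ≤ L ^ (B + 2) := hLB3
            _ ≤ L ^ (B + 4) := pow_le_pow_right₀ hL1 (by omega)
        rw [h3]
        have h5 : 1 * 100 ≤ (η * (P * L ^ B)) * L ^ (B + 4) := mul_le_mul hη h4 (by norm_num) (by positivity)
        linarith [show η / 100 * (P * (L ^ B * L ^ (B + 4))) = (η * (P * L ^ B)) * L ^ (B + 4) / 100 by ring]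
      linarith
    have hA1 := hE' y₁ (by linarith) (by linarith) hyE (ℓ + (x - y₁)) (by linarith) (by linarith)
    have hA2 := hE' y₂ (by linarith) (by linarith) hzE (ℓ - (y₂ - x)) (by linarith) (by linarith)
    have hm1 : Th A x ℓ ≤ Th A y₁ (ℓ + (x - y₁)) := Th_mono A (by linarith) (by linarith)
    have hm2 : Th A y₂ (ℓ - (y₂ - x)) ≤ Th A x ℓ := Th_mono A (by linarith) (by linarith)
    rw [← hS] at hA1 hA2 ⊢
    obtain ⟨ε, hε⟩ : ∃ ε : ℝ, ε = 1 / L ^ (2 * B + 4) := ⟨_, rfl⟩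
    obtain ⟨δ, hδ⟩ : ∃ δ : ℝ, δ = 1 / L ^ (B + 2) := ⟨_, rfl⟩
    obtain ⟨D, hD⟩ : ∃ D : ℝ, D = 1 / (4 * L ^ B) := ⟨_, rfl⟩
    have hεp : 0 < ε := by rw [hε]; positivity
    have hδp : 0 < δ := by rw [hδ]; positivity
    have hδD : δ ≤ D := by
      rw [hδ, hD, pow_add]
      apply one_div_le_one_div_of_le (by positivity)
      nlinarith only [hLB, hL4]
    have hεδ : ε ≤ δ := by
      rw [hε, hδ]
      exact one_div_le_one_div_of_le (by positivity) (pow_le_pow_right₀ hL1 (by omega))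
    have hD1 : D ≤ 1 / 4 := by
      rw [hD]; apply one_div_le_one_div_of_le (by norm_num); linarith
    obtain ⟨hc1, hc2⟩ := aux1 δ ε D hδp hδD hεp (hεδ.trans hδD) hD1
    have hηδ : η' ≤ δ * ℓ := by
      rw [hη', hδ, div_mul_eq_mul_div, one_mul]
      exact div_le_div_of_nonneg_right hℓ1 (by positivity)
    have hg : ℓ * S / L ^ B = 4 * D * (ℓ * S) := by rw [hD]; field_simp
    rw [hg]
    rw [abs_le] at hA1 hA2
    have hSℓ : 0 ≤ ℓ * S := by positivity
    have hup : Th A x ℓ ≤ (1 + δ) * (1 + ε) * (ℓ * S) := by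
      have h1 : Th A x ℓ ≤ (ℓ + (x - y₁)) * (S * (1 + ε)) := by
        have : (ℓ + (x - y₁)) * S / L ^ (2 * B + 4) = (ℓ + (x - y₁)) * S * ε := by rw [hε]; ring
        linarith [hA1.2]
      have h2 : ℓ + (x - y₁) ≤ (1 + δ) * ℓ := by linarith
      have h3 : 0 ≤ S * (1 + ε) := by positivity
      have h4 := mul_le_mul_of_nonneg_right h2 h3
      linarith [show (1 + δ) * ℓ * (S * (1 + ε)) = (1 + δ) * (1 + ε) * (ℓ * S) by ring]
    have hε1 : ε ≤ 1 := by linarith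
    have hlo : (1 - δ) * (1 - ε) * (ℓ * S) ≤ Th A x ℓ := by
      have h1 : (ℓ - (y₂ - x)) * (S * (1 - ε)) ≤ Th A x ℓ := by
        have : (ℓ - (y₂ - x)) * S / L ^ (2 * B + 4) = (ℓ - (y₂ - x)) * S * ε := by rw [hε]; ring
        linarith [hA2.1]
      have h2 : (1 - δ) * ℓ ≤ ℓ - (y₂ - x) := by linarith
      have h3 : 0 ≤ S * (1 - ε) := mul_nonneg hS0 (by linarith)
      have h4 := mul_le_mul_of_nonneg_right h2 h3
      linarith [show (1 - δ) * ℓ * (S * (1 - ε)) = (1 - δ) * (1 - ε) * (ℓ * S) by ring]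
    rw [abs_le]
    constructor
    · have := mul_le_mul_of_nonneg_right hc2 hSℓ
      linarith
    · have := mul_le_mul_of_nonneg_right hc1 hSℓ
      linarith

end Pool.Agent.Results.MP_711652_nt.PolylogPrimeDilations
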