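import Pool.Agent.H15.FD.Fin

/-! A few dilations of polylogarithmic size: for almost all `k`-tuples `a_1, ..., a_k` of elements of a dense set of primes
of polylogarithmic size the primes in the windows `(a_j x, a_j (x + ℓ)]` are equidistributed on average over `j ≤ k`, at
all scales `ℓ` at once, for all points `x` of well spaced sets with a proportion of exceptions which decreases
exponentially in `k`. -/

set_option autoImplicit false

namespace Pool.Agent.Results.MP_711652_nt.FewPolylogDilations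
open Finset Pool.Agent.H15.FD

lemma FF_sub {k : ℕ} (a : Fin k → ℕ) (x ℓ : ℝ) (hx : 0 ≤ x) (hℓ : 0 ≤ ℓ) :
    FF a (x + ℓ) - FF a x =
      ∑ j, ∑ p ∈ (Finset.Ioc ⌊(a j : ℝ) * x⌋₊ ⌊(a j : ℝ) * (x + ℓ)⌋₊).filter Nat.Prime, Real.log p := by
  unfold FF
  rw [← sum_sub_distrib]
  apply sum_congr rfl
  intro j _
  exact theta_sub _ _ (by positivity) (mul_le_mul_of_nonneg_left (by linarith) (Nat.cast_nonneg _))

/-- For every `B` there are `C` and `N₀` such that, for all `N ≥ N₀`, all `P` with `(log N)^C ≤ P ≤ N^B`, every set `A` of at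
least `P / (log N)^B` primes in `(P / 2, P]`, every `δ` in `[1 / (log N)^B, 1]` and all `1 ≤ k ≤ (log N)^B`, with
`ε = (128 / δ) exp(- δ² k / 65536) + 1 / (log N)^B`: all but `ε |A|^k` of the `k`-tuples `(a_1, ..., a_k)` of elements
of `A` have the following property. For every `η ≥ (log N)^C / P` and every `η`-separated finite set `X` of reals in
`[N, 2 N]`, all but `ε N / η` of the points `x` of `X` satisfy, for every real `ℓ` in `[η, N]`,
`∑_j ∑_{a_j x < p ≤ a_j (x + ℓ)} log p = (1 + θ δ) ℓ (a_1 + ... + a_k)` with `|θ| ≤ 1`. -/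
theorem result (B : ℕ) : ∃ (C : ℕ) (N₀ : ℝ), ∀ (N P δ ε : ℝ) (A : Finset ℕ) (k : ℕ),
    N₀ ≤ N → Real.log N ^ C ≤ P → P ≤ N ^ B →
    (∀ a ∈ A, a.Prime ∧ P / 2 < a ∧ (a : ℝ) ≤ P) → P / Real.log N ^ B ≤ A.card →
    1 / Real.log N ^ B ≤ δ → δ ≤ 1 → 1 ≤ k → (k : ℝ) ≤ Real.log N ^ B →
    ε = 128 / δ * Real.exp (-(δ ^ 2 * k / 65536)) + 1 / Real.log N ^ B →
    ∃ E : Finset (Fin k → ℕ), E ⊆ Fintype.piFinset (fun _ => A) ∧ (E.card : ℝ) ≤ ε * (A.card : ℝ) ^ k ∧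
      ∀ a ∈ Fintype.piFinset (fun _ : Fin k => A), a ∉ E →
        ∀ (η : ℝ) (X : Finset ℝ), Real.log N ^ C / P ≤ η → (∀ x ∈ X, N ≤ x ∧ x ≤ 2 * N) →
        (∀ x ∈ X, ∀ x' ∈ X, x ≠ x' → η ≤ |x - x'|) →
        ∃ X' : Finset ℝ, X' ⊆ X ∧ (X'.card : ℝ) ≤ ε * (N / η) ∧
          ∀ x ∈ X, x ∉ X' → ∀ ℓ : ℝ, η ≤ ℓ → ℓ ≤ N →
            |∑ j, ∑ p ∈ (Finset.Ioc ⌊(a j : ℝ) * x⌋₊ ⌊(a j : ℝ) * (x + ℓ)⌋₊).filter Nat.Prime, Real.log p - ℓ * ∑ j, (a j : ℝ)| ≤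
              δ * (ℓ * ∑ j, (a j : ℝ)) := by
  classical
  obtain ⟨C, N₀, hmain⟩ := main B
  refine ⟨C, max N₀ 3, ?_⟩
  intro N P δ ε A k hN hCP hPN hA hcard hδL hδ1 hk hkL hε
  obtain ⟨E, hE, hEc, hEb⟩ := hmain N P δ ε A k ((le_max_left _ _).trans hN) hCP hPN hA hcard hδL hδ1 hk hkL hε
  refine ⟨E, hE, hEc, ?_⟩
  intro a ha haE η X hη hX hsep
  have hN3 : 3 ≤ N := (le_max_right _ _).trans hN
  have hL : 0 < Real.log N := Real.log_pos (by linarith)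
  have hP : 0 < P := lt_of_lt_of_le (by positivity) hCP
  have hη0 : 0 < η := lt_of_lt_of_le (by positivity) hη
  refine ⟨X.filter (fun x => ∃ ℓ : ℝ, η ≤ ℓ ∧ ℓ ≤ N ∧ δ * (ℓ * ∑ j, (a j : ℝ)) < |FF a (x + ℓ) - FF a x - ℓ * ∑ j, (a j : ℝ)|),
    filter_subset _ _, ?_, ?_⟩
  · apply hEb a ha haE η _ hη
    · intro x hx; rw [mem_filter] at hx; exact hX x hx.1
    · intro x hx x' hx' hne
      rw [mem_filter] at hx hx'
      exact hsep x hx.1 x' hx'.1 hne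
    · intro x hx; rw [mem_filter] at hx; exact hx.2
  · intro x hx hx' ℓ hℓ1 hℓ2
    rw [mem_filter, not_and] at hx'
    have h1 := hx' hx
    push Not at h1
    have h2 := h1 ℓ hℓ1 hℓ2
    rwa [FF_sub a x ℓ (by linarith [(hX x hx).1]) (by linarith)] at h2

end Pool.Agent.Results.MP_711652_nt.FewPolylogDilations
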