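import Pool.Agent.H15.MC.Mi

/-! Constants of Mills type with multipliers of polylogarithmic size: for almost every integer `m` there are a real `α` in
`[m, m + 1)` and primes `a_1, a_2, ...`, each at most a power of the logarithm of the integer reached before, such that all
the integers `⌊α a_1 a_2 ... a_i⌋` are prime, and moreover outside any given sparse set. -/

set_option autoImplicit false

namespace Pool.Agent.Results.MP_711652_nt.MillsConstants
open Finset

/-- For every `B` there are `C` and `N₀` with the following property. Let `Z` be any set of integers (for example the empty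
set) with at most `M / (log M)^(B + 7)` elements in `[M, 2 M)` for every `M ≥ N₀`. For every `N ≥ N₀` all but at most
`N / (log N)^B` of the integers `m` in `[N, 2 N)` are such that there are a real number `α` with `m ≤ α < m + 1` and primes
`a_0, a_1, a_2, ...` such that for every `i ≥ 0` the integer `⌊α a_0 a_1 ... a_i⌋` is a prime which is not in `Z`, and
`a_i ≤ (log (α a_0 ... a_{i-1}))^C`. -/
theorem result (B : ℕ) : ∃ (C : ℕ) (N₀ : ℝ), ∀ Z : Set ℕ,
    (∀ M : ℕ, N₀ ≤ M → ((Z ∩ Set.Ico M (2 * M)).ncard : ℝ) ≤ M / Real.log M ^ (B + 7)) →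
    ∀ N : ℕ, N₀ ≤ N →
    ∃ X : Finset ℕ, (X.card : ℝ) ≤ N / Real.log N ^ B ∧
      ∀ m : ℕ, N ≤ m → m < 2 * N → m ∉ X →
        ∃ (α : ℝ) (a : ℕ → ℕ), (m : ℝ) ≤ α ∧ α < m + 1 ∧
          (∀ i, (a i).Prime ∧ (a i : ℝ) ≤ Real.log (α * ∏ j ∈ Finset.range i, (a j : ℝ)) ^ C) ∧
          ∀ i, (⌊α * ∏ j ∈ Finset.range (i + 1), (a j : ℝ)⌋₊).Prime ∧
            ⌊α * ∏ j ∈ Finset.range (i + 1), (a j : ℝ)⌋₊ ∉ Z :=
  Pool.Agent.H15.MC.mills B

end Pool.Agent.Results.MP_711652_nt.MillsConstants
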